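import Pool.Agent.MP_db5b97_nt.H31.SpecT
import Pool.Agent.MP_db5b97_nt.H85.All

/-! Base change to an inert extension kills cohomology in degrees one and zero. -/

namespace Pool.Agent.MP_db5b97_nt.H56

open NumberField IsDedekindDomain Polynomial H85 H31 H76

theorem post_smul {G M A B : Type} [Group G] [AddCommGroup M] [AddCommGroup A] [AddCommGroup B]
    [DistribMulAction G M] [DistribMulAction G A] [DistribMulAction G B] {φ : A →+ B}
    (h : ∀ (s : G) x, φ (s • x) = s • φ x) (s : G) (f : Hm M A) :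
    Hm.post φ (s • f) = s • Hm.post φ f := Hm.ext fun _ => h s _

theorem post_tr {G M A B : Type} [Group G] [Fintype G] [AddCommGroup M] [AddCommGroup A]
    [AddCommGroup B] [DistribMulAction G M] [DistribMulAction G A] [DistribMulAction G B]
    {φ : A →+ B} (h : ∀ (s : G) x, φ (s • x) = s • φ x) (f : Hm M A) :
    Hm.post φ (tr G f) = tr G (Hm.post φ f) := by
  simp only [tr_apply, map_sum, post_smul h]

theorem smul_sum_cc {G A : Type} [Group G] [Fintype G] [AddCommGroup A] [DistribMulAction G A]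
    {c : G → A} (hc : Cc c) (s : G) : s • ∑ g, c g - ∑ g, c g = -(Nat.card G • c s) := by
  have h : ∑ g, c g = ∑ g, (c s + s • c g) :=
    (Equiv.sum_comp (Equiv.mulLeft s) c).symm.trans (Finset.sum_congr rfl fun g _ => hc s g)
  rw [Finset.sum_add_distrib, Finset.sum_const, Finset.card_univ, ← Finset.smul_sum,
    ← Nat.card_eq_fintype_card] at h
  rw [sub_eq_iff_eq_add, eq_neg_add_iff_add_eq]
  exact h.symm

/-- the extension of divisors -/
noncomputable def coE (k F : Type) [Field k] [NumberField k] [Field F] [NumberField F]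
    [Algebra k F] (l : ℕ) : Dv k l →+ Dv F l where
  toFun D := Finsupp.ofSupportFinite
    (fun w => (w.1.asIdeal.ramificationIdx (𝓞 k) : ℤ) * con k F l D w)
    ((con k F l D).support.finite_toSet.subset fun _ hw =>
      Finsupp.mem_support_iff.2 (right_ne_zero_of_mul hw))
  map_zero' := by ext w; simp [Finsupp.ofSupportFinite_coe]
  map_add' x y := by ext w; simp [Finsupp.ofSupportFinite_coe, mul_add]

theorem dv_inc' {k F : Type} [Field k] [NumberField k] [Field F] [NumberField F] [Algebra k F]
    {l : ℕ} (x : Un k) : dv F l (Un.inc k F x) = coE k F l (dv k l x) := by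
  ext w
  rw [dv_apply, rowNT2.ord_inc]
  rfl

theorem nrm_inc {k F : Type} [Field k] [NumberField k] [Field F] [NumberField F] [Algebra k F]
    (x : Un k) : Un.nrm k F (Un.inc k F x) = Module.finrank k F • x :=
  Un.ext (by simp [Algebra.norm_algebraMap])

theorem nrD_coE {k F : Type} [Field k] [NumberField k] [Field F] [NumberField F] [Algebra k F]
    {l : ℕ} (D : Dv k l) : nrD F l k (coE k F l D) = Module.finrank k F • D := by
  refine DFunLike.congr_fun (hom_ext (f := (nrD F l k).comp (coE k F l))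
    (g := Module.finrank k F • AddMonoidHom.id _) fun y => ?_) D
  show nrD F l k (coE k F l (dv k l y)) = Module.finrank k F • dv k l y
  rw [← dv_inc', ← H10.rowNT1.dv_nrm, nrm_inc, map_nsmul]

theorem ctHyp {p l : ℕ} {P F F' : Type} [Group P] [Fintype P] [Field F] [NumberField F] [Field F']
    [NumberField F'] [Algebra F F'] [MulSemiringAction P F] [MulSemiringAction P F']
    (H : CoHyp p l P F F') : CTHyp p P (dv F' l) (dv F l) (Un.nrm F F') (nrD F' l F) := by
  obtain ⟨hp, hP, _, he, hi, hl, hθ, hr, ⟨α, g, hg, h0, hd, hirr, hα, hco⟩, -⟩ := H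
  have h1 := H10.rowNT1
  have h2 := rowNT2
  have hS := H35.rowSQ H10.rowNT1 rowNT2 allLAY allS2 H76.rowIN
  have : FaithfulSMul P F' := ⟨fun {s t} h => eq_of_smul_eq_smul (α := F) fun x =>
    (algebraMap F F').injective (by rw [he, he, h])⟩
  have hN : ∀ (s : P) x, Un.nrm F F' (s • x) = s • Un.nrm F F' x := fun s x => Un.ext (by
    have := Algebra.norm_eq_of_equiv_equiv (MulSemiringAction.toRingEquiv P F s)
      (MulSemiringAction.toRingEquiv P F' s) (RingHom.ext fun y => he s y) x.val
    rw [Un.val_smul, Un.val_nrm, Un.val_nrm, this]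
    exact ((MulSemiringAction.toRingEquiv P F s).apply_symm_apply _).symm)
  refine ⟨hp, hP, dv_smul h2, dv_smul h2, hN, fun s D => ?_, h1.dv_nrm F F' l, h2.h90 F' P,
    fun Q σ hn hσ hσ' => ?_⟩
  · refine DFunLike.congr_fun (hom_ext (f := (nrD F' l F).comp (DistribSMul.toAddMonoidHom _ s))
      (g := (DistribSMul.toAddMonoidHom _ s).comp (nrD F' l F)) fun y => ?_) D
    show nrD F' l F (s • dv F' l y) = s • nrD F' l F (dv F' l y)
    rw [← dv_smul h2, ← h1.dv_nrm, ← h1.dv_nrm, hN, dv_smul h2]
  · obtain ⟨K, _, _, _, _⟩ := exists_fix F Q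
    obtain ⟨k, _, _, _, _⟩ := exists_fix F ↥(Q ⊔ Subgroup.zpowers σ)
    obtain ⟨K', _, _, _, _⟩ := exists_fix F' Q
    obtain ⟨k', _, _, _, _⟩ := exists_fix F' ↥(Q ⊔ Subgroup.zpowers σ)
    obtain ⟨a, ha⟩ := exists_lift (G := Q) (K := K) (algebraMap k F) fun s x =>
      smul_alg (Subgroup.inclusion (le_sup_left (b := Subgroup.zpowers σ)) s) x
    obtain ⟨a', ha'⟩ := exists_lift (G := Q) (K := K') (algebraMap k' F') fun s x =>
      smul_alg (Subgroup.inclusion (le_sup_left (b := Subgroup.zpowers σ)) s) x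
    obtain ⟨b, hb⟩ := exists_lift (G := Q) (K := K') ((algebraMap F F').comp (algebraMap K F))
      fun s x => (he s _).symm.trans (congrArg _ (smul_alg s x))
    obtain ⟨b', hb'⟩ := exists_lift (G := ↥(Q ⊔ Subgroup.zpowers σ)) (K := k')
      ((algebraMap F F').comp (algebraMap k F))
      fun s x => (he s _).symm.trans (congrArg _ (smul_alg s x))
    let _ := a.toAlgebra
    let _ := a'.toAlgebra
    let _ := b.toAlgebra
    let _ := b'.toAlgebra
    let _ := (b.comp a).toAlgebra
    let _ := ((algebraMap F F').comp (algebraMap k F)).toAlgebra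
    let _ := ((algebraMap F F').comp (algebraMap K F)).toAlgebra
    have : IsScalarTower k K F := .of_algebraMap_eq fun x => (ha x).symm
    have : IsScalarTower k' K' F' := .of_algebraMap_eq fun x => (ha' x).symm
    have : IsScalarTower k K K' := .of_algebraMap_eq fun x => rfl
    have : IsScalarTower k k' K' := .of_algebraMap_eq fun x => (algebraMap K' F').injective
      ((hb (a x)).trans ((congrArg _ (ha x)).trans ((hb' x).symm.trans (ha' _).symm)))
    have : IsScalarTower k F F' := .of_algebraMap_eq fun x => rfl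
    have : IsScalarTower k k' F' := .of_algebraMap_eq fun x => (hb' x).symm
    have : IsScalarTower K F F' := .of_algebraMap_eq fun x => rfl
    have : IsScalarTower K K' F' := .of_algebraMap_eq fun x => (hb x).symm
    exact layer Q σ k K F k' K' F' h1 h2 hS hp hn hσ hσ' he hi hl hθ hr hg h0 hd hirr hα hco

theorem rowCOREs : RowGCT1 → RowGCT2 → RowCOREs := by
  intro G1 G2 p l P F F' M _ _ _ _ _ _ _ _ _ _ _ _ H
  have hC := ctHyp H
  obtain ⟨n, hn⟩ := H.dvd
  have hI : ∀ (s : P) x, Un.inc F F' (s • x) = s • Un.inc F F' x := fun s x =>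
    Un.ext (H.eqv s x.val)
  have hE : ∀ (s : P) D, coE F F' l (s • D) = s • coE F F' l D := fun s D => by
    refine DFunLike.congr_fun (hom_ext (f := (coE F F' l).comp (DistribSMul.toAddMonoidHom _ s))
      (g := (DistribSMul.toAddMonoidHom _ s).comp (coE F F' l)) fun y => ?_) D
    show coE F F' l (s • dv F l y) = s • coE F F' l (dv F l y)
    rw [← dv_smul rowNT2, ← dv_inc', ← dv_inc', hI, dv_smul rowNT2]
  have e1 : ∀ f : Hm M (Un F), Hm.post (dv F' l) (Hm.post (Un.inc F F') f) =
      Hm.post (coE F F' l) (Hm.post (dv F l) f) := fun f => Hm.ext fun m => dv_inc' (f m)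
  have e2 : ∀ f : Hm M (Un F), Hm.post (Un.nrm F F') (Hm.post (Un.inc F F') f) =
      (Nat.card P * n) • f := fun f => Hm.ext fun m => hn ▸ nrm_inc (f m)
  have e3 : ∀ f : Hm M (Dv F l), Hm.post (nrD F' l F) (Hm.post (coE F F' l) f) =
      (Nat.card P * n) • f := fun f => Hm.ext fun m => hn ▸ nrD_coE (f m)
  refine ⟨fun c hc hc0 => ?_, fun z ε hz hε => ?_⟩
  · have h0 : ∀ s, Hm.post (dv F l) (c s) = 0 := fun s => Hm.ext (hc0 s)
    obtain ⟨u, ε, hu, hε⟩ := G1 p P _ _ _ _ M _ _ _ _ hC (fun s => Hm.post (Un.inc F F') (c s)) 0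
      (-(n • ∑ g, c g)) 0 (fun s t => by simp only [hc s t, map_add, post_smul hI])
      (fun s => by rw [e1, h0, map_zero, smul_zero, sub_zero])
      (fun s => by
        rw [e2, smul_neg, smul_comm, neg_sub_neg, ← neg_sub, ← smul_sub, smul_sum_cc hc, smul_neg,
          neg_neg, smul_smul, mul_comm])
      (by simp only [map_zero, map_neg, map_nsmul, map_sum, h0, Finset.sum_const_zero, smul_zero,
        neg_zero, sub_zero])
    exact ⟨u, -ε, hu, by rw [hε, map_neg, zero_sub]⟩
  · refine G2 p P _ _ _ _ M _ _ _ _ hC (Hm.post (Un.inc F F') z) (Hm.post (coE F F' l) ε) (n • z)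
      (fun _ => n • ε) (fun s => by rw [← post_smul hI, hz]) (by rw [e1, hε, post_tr hE]) ?_ ?_
    · rw [e2, map_nsmul, tr_apply]
      simp only [hz, Finset.sum_const, Finset.card_univ, smul_smul, Nat.card_eq_fintype_card,
        mul_comm]
    · rw [e3, map_nsmul, hε, Finset.sum_sub_distrib, ← tr_apply, map_nsmul, Finset.sum_const,
        Finset.card_univ, smul_smul, Nat.card_eq_fintype_card]

end Pool.Agent.MP_db5b97_nt.H56
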